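import Mathlib
import Pool.Agent.Lib.helper11.SmallSol

open Finset

namespace Pool.Agent.Results.MP_bd8ab5_nt.Dec

def CPM (G : List ℕ) : Prop :=
  ∃ a b c d : ℕ, b ≠ 0 ∧ c ≠ 0 ∧
    ∀ x : ℕ, x ∉ G ↔ (x = 0 ∨ ((a : ℤ) * x) % b ≤ (c : ℤ) * x - d)

open Pool.Agent.Lib.helper11.SmallSol

def R (G : List ℕ) (a b c d : ℕ) : Prop :=
  b ≠ 0 ∧ c ≠ 0 ∧ ∀ x < 2 * (G.sum + 1), (x ∉ G ↔ (x = 0 ∨ a * x % b + d ≤ c * x))

theorem cast_iff (a b c d x : ℕ) :
    ((a : ℤ) * x) % b ≤ (c : ℤ) * x - d ↔ a * x % b + d ≤ c * x := by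
  rw [le_sub_iff_add_le]
  exact_mod_cast Iff.rfl

theorem iff1 (G : List ℕ) : CPM G ↔ ∃ a b c d, R G a b c d := by
  simp only [CPM, cast_iff]
  constructor
  · rintro ⟨a, b, c, d, hb, hc, h⟩
    exact ⟨a, b, c, d, hb, hc, fun x _ => h x⟩
  · rintro ⟨a, b, c, d, hb, hc, h⟩
    have hG : ∀ x, G.sum + 1 ≤ x → x ∉ G := fun x hx hm => by
      have := List.le_sum_of_mem hm
      omega
    have hP : ∀ x, G.sum + 1 ≤ x → a * x % b + d ≤ c * x := by
      intro x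
      induction x using Nat.strong_induction_on with
      | _ x ih =>
        intro hx
        by_cases h2 : x < 2 * (G.sum + 1)
        · exact ((h x h2).1 (hG x hx)).resolve_left (by omega)
        · obtain ⟨y, rfl⟩ : ∃ y, x = y + (G.sum + 1) := ⟨x - (G.sum + 1), by omega⟩
          have h3 := ih y (by omega) (by omega)
          have h4 := ih (G.sum + 1) (by omega) le_rfl
          have h5 : a * (y + (G.sum + 1)) % b ≤ a * y % b + a * (G.sum + 1) % b := by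
            rw [mul_add, Nat.add_mod]
            exact Nat.mod_le _ _
          rw [mul_add c]
          omega
    refine ⟨a, b, c, d, hb, hc, fun x => ?_⟩
    by_cases h2 : x < 2 * (G.sum + 1)
    · exact h x h2
    · exact ⟨fun _ => Or.inr (hP x (by omega)), fun _ => hG x (by omega)⟩

theorem iff2 : ∃ f : ℕ → ℕ, Primrec f ∧ ∀ G : List ℕ, (∃ a b c d, R G a b c d) ↔
    ∃ a < f (2 * (G.sum + 1)), ∃ b < f (2 * (G.sum + 1)), ∃ c < f (2 * (G.sum + 1)),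
      ∃ d < f (2 * (G.sum + 1)), R G a b c d := by
  obtain ⟨f, hf, H⟩ := small 4
  refine ⟨fun M => f M + 1, Primrec.succ.comp hf, fun G => ⟨?_, fun ⟨a, _, b, _, c, _, d, _, h⟩ =>
    ⟨a, b, c, d, h⟩⟩⟩
  rintro ⟨a0, b, c, d, hb, hc, h⟩
  beta_reduce
  obtain ⟨a, ha⟩ : ∃ a, a = a0 % b := ⟨_, rfl⟩
  have hb0 : 0 < b := Nat.pos_of_ne_zero hb
  have hab : a < b := ha ▸ Nat.mod_lt _ hb0
  have hm : ∀ x, a0 * x % b = a * x % b := fun x => by rw [ha, Nat.mod_mul_mod]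
  simp only [hm] at h
  obtain ⟨M, hM⟩ : ∃ M, M = 2 * (G.sum + 1) := ⟨_, rfl⟩
  rw [← hM] at h ⊢
  have M1 : 1 ≤ M := by omega
  obtain ⟨z, hz, hzb⟩ := H M {p | (∀ i, |p.1 i| ≤ M) ∧
      0 ≤ ∑ i, p.1 i * ![(a : ℤ), b, c, d] i ∧
        (p.2 = true → 0 < ∑ i, p.1 i * ![(a : ℤ), b, c, d] i)}
    (fun p hp => hp.1) ![(a : ℤ), b, c, d] (fun p hp => hp.2)
  have T : ∀ (u v w t : ℤ), |u| ≤ M → |v| ≤ M → |w| ≤ M → |t| ≤ M →
      (0 ≤ u * a + v * b + w * c + t * d → 0 ≤ u * z 0 + v * z 1 + w * z 2 + t * z 3) ∧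
      (0 < u * a + v * b + w * c + t * d → 0 < u * z 0 + v * z 1 + w * z 2 + t * z 3) := by
    intro u v w t hu hv hw ht
    have hb : ∀ i, |![u, v, w, t] i| ≤ M := by
      intro i; fin_cases i <;> simpa
    constructor
    · intro h0
      simpa [Fin.sum_univ_four] using (hz (![u, v, w, t], false)
        ⟨hb, by simpa [Fin.sum_univ_four] using h0, by simp⟩).1
    · intro h0
      simpa [Fin.sum_univ_four] using (hz (![u, v, w, t], true)
        ⟨hb, by simpa [Fin.sum_univ_four] using h0.le, fun _ => by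
          simpa [Fin.sum_univ_four] using h0⟩).2 rfl
  have o1 : |(1 : ℤ)| ≤ M := by simpa using M1
  have o0 : |(0 : ℤ)| ≤ M := by simp
  have om : |(-1 : ℤ)| ≤ M := by simpa using M1
  have z0 := (T 1 0 0 0 o1 o0 o0 o0).1 (by simp)
  have z1 := (T 0 1 0 0 o0 o1 o0 o0).2 (by simpa using hb0)
  have z2 := (T 0 0 1 0 o0 o0 o1 o0).2 (by simpa using Nat.pos_of_ne_zero hc)
  have z3 := (T 0 0 0 1 o0 o0 o0 o1).1 (by simp)
  simp only [one_mul, zero_mul, add_zero, zero_add] at z0 z1 z2 z3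
  obtain ⟨a', ha'⟩ := Int.eq_ofNat_of_zero_le z0
  obtain ⟨b', hb'⟩ := Int.eq_ofNat_of_zero_le z1.le
  obtain ⟨c', hc'⟩ := Int.eq_ofNat_of_zero_le z2.le
  obtain ⟨d', hd'⟩ := Int.eq_ofNat_of_zero_le z3
  have y0 := abs_le.1 (hzb 0)
  have y1 := abs_le.1 (hzb 1)
  have y2 := abs_le.1 (hzb 2)
  have y3 := abs_le.1 (hzb 3)
  refine ⟨a', by omega, b', by omega, c', by omega, d', by omega, by omega, by omega,
    fun x hx => ?_⟩
  rw [← hM] at hx
  rw [h x hx]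
  refine or_congr_right ?_
  rw [ha', hb', hc', hd'] at T
  obtain ⟨k, hk⟩ : ∃ k, k = a * x / b := ⟨_, rfl⟩
  have k1 : k ≤ x := by
    rw [hk]
    exact Nat.div_le_of_le_mul (Nat.mul_le_mul_right _ hab.le)
  have k2 : (b : ℤ) * k + (a * x % b : ℕ) = a * x := by
    rw [hk]; exact_mod_cast Nat.div_add_mod (a * x) b
  have k3 : ((a * x % b : ℕ) : ℤ) < b := by exact_mod_cast Nat.mod_lt _ hb0
  have k4 : (0 : ℤ) ≤ (a * x % b : ℕ) := Nat.cast_nonneg _
  have px : |(x : ℤ)| ≤ M := by rw [abs_le]; omega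
  have nx : |-(x : ℤ)| ≤ M := by rw [abs_le]; omega
  have pk : |(k : ℤ)| ≤ M := by rw [abs_le]; omega
  have nk : |-(k : ℤ)| ≤ M := by rw [abs_le]; omega
  have pk1 : |(k : ℤ) + 1| ≤ M := by rw [abs_le]; omega
  have e1 := (T x (-k) 0 0 px nk o0 o0).1 (by linarith)
  have e2 := (T (-x) (k + 1) 0 0 nx pk1 o0 o0).2 (by linarith)
  have e3 : ((a' * x % b' : ℕ) : ℤ) = a' * x - b' * k := by
    push_cast
    rw [show (a' : ℤ) * x = (a' * x - b' * k) + b' * k by ring, Int.add_mul_emod_self_left,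
      Int.emod_eq_of_lt (by linarith) (by linarith)]
    ring
  constructor
  · intro h5
    have h6 : ((a * x % b : ℕ) : ℤ) + d ≤ c * x := by exact_mod_cast h5
    have := (T (-x) k x (-1) nx pk px om).1 (by linarith)
    have : ((a' * x % b' : ℕ) : ℤ) + d' ≤ c' * x := by linarith
    exact_mod_cast this
  · intro h5
    by_contra h6
    have h6 : (c : ℤ) * x < ((a * x % b : ℕ) : ℤ) + d := by exact_mod_cast not_le.1 h6
    have h7 : ((a' * x % b' : ℕ) : ℤ) + d' ≤ c' * x := by exact_mod_cast h5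
    have := (T x (-k) (-x) 1 px nk nx o1).2 (by linarith)
    linarith

theorem psum : Primrec fun G : List ℕ => G.sum :=
  (Primrec.list_foldr (f := fun G : List ℕ => G) (g := fun _ => 0)
    (h := fun _ p => p.1 + p.2) Primrec.id (Primrec.const 0)
    (Primrec.nat_add.comp (Primrec.fst.comp Primrec.snd)
      (Primrec.snd.comp Primrec.snd)).to₂).of_eq fun G => by
    induction G with
    | nil => rfl
    | cons a G ih => simp [ih]

theorem bex {β : Type} [Primcodable β] {P : ℕ × β → Prop} {g : β → ℕ} (hP : PrimrecPred P)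
    (hg : Primrec g) : PrimrecPred fun y : β => ∃ x < g y, P (x, y) :=
  ((PrimrecRel.exists_mem_list (R := fun x y => P (x, y)) hP).comp
    (Primrec.list_range.comp hg) Primrec.id).of_eq (by simp)

theorem ball {β : Type} [Primcodable β] {P : ℕ × β → Prop} {g : β → ℕ} (hP : PrimrecPred P)
    (hg : Primrec g) : PrimrecPred fun y : β => ∀ x < g y, P (x, y) :=
  ((PrimrecRel.forall_mem_list (R := fun x y => P (x, y)) hP).comp
    (Primrec.list_range.comp hg) Primrec.id).of_eq (by simp)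

theorem pR : PrimrecPred fun p : ℕ × ℕ × ℕ × ℕ × List ℕ =>
    R p.2.2.2.2 p.2.2.2.1 p.2.2.1 p.2.1 p.1 := by
  have hmem : PrimrecRel fun (G : List ℕ) (x : ℕ) => x ∈ G :=
    (PrimrecRel.exists_mem_list (R := fun a b : ℕ => a = b) Primrec.eq).of_eq (by simp)
  have s1 : Primrec fun q : ℕ × ℕ × ℕ × ℕ × ℕ × List ℕ => q.2 := Primrec.snd
  have s2 : Primrec fun q : ℕ × ℕ × ℕ × ℕ × ℕ × List ℕ => q.2.2 := Primrec.snd.comp s1
  have s3 : Primrec fun q : ℕ × ℕ × ℕ × ℕ × ℕ × List ℕ => q.2.2.2 := Primrec.snd.comp s2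
  have s4 : Primrec fun q : ℕ × ℕ × ℕ × ℕ × ℕ × List ℕ => q.2.2.2.2 := Primrec.snd.comp s3
  have A : PrimrecPred fun q : ℕ × ℕ × ℕ × ℕ × ℕ × List ℕ => q.1 ∉ q.2.2.2.2.2 :=
    (hmem.comp (Primrec.snd.comp s4) Primrec.fst).not
  have B : PrimrecPred fun q : ℕ × ℕ × ℕ × ℕ × ℕ × List ℕ =>
      q.1 = 0 ∨ q.2.2.2.2.1 * q.1 % q.2.2.2.1 + q.2.1 ≤ q.2.2.1 * q.1 :=
    (Primrec.eq.comp Primrec.fst (Primrec.const 0)).or
      (Primrec.nat_le.comp (Primrec.nat_add.comp (Primrec.nat_mod.comp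
        (Primrec.nat_mul.comp (Primrec.fst.comp s4) Primrec.fst) (Primrec.fst.comp s3))
        (Primrec.fst.comp s1)) (Primrec.nat_mul.comp (Primrec.fst.comp s2) Primrec.fst))
  have h1 : PrimrecPred fun q : ℕ × ℕ × ℕ × ℕ × ℕ × List ℕ => (q.1 ∉ q.2.2.2.2.2 ↔
      (q.1 = 0 ∨ q.2.2.2.2.1 * q.1 % q.2.2.2.1 + q.2.1 ≤ q.2.2.1 * q.1)) :=
    ((A.and B).or (A.not.and B.not)).of_eq fun q => iff_iff_and_or_not_and_not.symm
  have t1 : Primrec fun q : ℕ × ℕ × ℕ × ℕ × List ℕ => q.2 := Primrec.snd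
  have t2 : Primrec fun q : ℕ × ℕ × ℕ × ℕ × List ℕ => q.2.2 := Primrec.snd.comp t1
  have t3 : Primrec fun q : ℕ × ℕ × ℕ × ℕ × List ℕ => q.2.2.2 := Primrec.snd.comp t2
  have t4 : Primrec fun q : ℕ × ℕ × ℕ × ℕ × List ℕ => 2 * (q.2.2.2.2.sum + 1) :=
    Primrec.nat_mul.comp (Primrec.const 2) (Primrec.succ.comp (psum.comp (Primrec.snd.comp t3)))
  have u1 : PrimrecPred fun q : ℕ × ℕ × ℕ × ℕ × List ℕ => q.2.2.1 ≠ 0 :=
    (Primrec.eq.comp (Primrec.fst.comp t2) (Primrec.const 0)).not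
  have u2 : PrimrecPred fun q : ℕ × ℕ × ℕ × ℕ × List ℕ => q.2.1 ≠ 0 :=
    (Primrec.eq.comp (Primrec.fst.comp t1) (Primrec.const 0)).not
  exact (u1.and (u2.and (ball h1 t4))).of_eq fun _ => Iff.rfl

theorem result : ComputablePred CPM := by
  obtain ⟨f, hf, H⟩ := iff2
  have hF : Primrec fun G : List ℕ => f (2 * (G.sum + 1)) :=
    hf.comp (Primrec.nat_mul.comp (Primrec.const 2) (Primrec.succ.comp psum))
  have g1 : Primrec fun p : ℕ × List ℕ => f (2 * (p.2.sum + 1)) := hF.comp Primrec.snd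
  have g2 : Primrec fun p : ℕ × ℕ × List ℕ => f (2 * (p.2.2.sum + 1)) := g1.comp Primrec.snd
  have g3 : Primrec fun p : ℕ × ℕ × ℕ × List ℕ => f (2 * (p.2.2.2.sum + 1)) :=
    g2.comp Primrec.snd
  exact ((bex (bex (bex (bex pR g3) g2) g1) hF).of_eq fun G =>
    ((iff1 G).trans (H G)).symm).computablePred

end Pool.Agent.Results.MP_bd8ab5_nt.Dec
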